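import Mathlib

/-!
# A finitely generated algebra of polynomial growth without greatest nilpotent ideal

The algebra acts on the vector space with basis `e q i`.  The two generators are partial shifts
`e q i ↦ e q (i+1)` inside the segment `0 ≤ i < q ^ 2`; the letter `true` is used when `q ∣ i + 1` and the
letter `false` otherwise.  It is the monomial algebra of the language of factors of the words
`(x^(q-1) y)^(q-1) x^(q-1)`.
-/

set_option autoImplicit false

namespace Pool.Agent.U693.GKNil

open Pointwise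

/-- the space -/
abbrev V : Type := ℕ × ℕ →₀ ℚ

/-- basis vectors -/
noncomputable def e (q i : ℕ) : V := Finsupp.single (q, i) 1

/-- the two letters -/
noncomputable def T (b : Bool) : Module.End ℚ V :=
  Finsupp.linearCombination ℚ (fun p : ℕ × ℕ =>
    if p.2 + 1 < p.1 * p.1 ∧ decide (p.1 ∣ p.2 + 1) = b then e p.1 (p.2 + 1) else 0)

lemma T_e (b : Bool) (q i : ℕ) :
    T b (e q i) = if i + 1 < q * q ∧ decide (q ∣ i + 1) = b then e q (i + 1) else 0 := by
  simp [T, e, Finsupp.linearCombination_single]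

lemma e_ne (q i : ℕ) : e q i ≠ 0 := by
  simp [e]

/-- the word of length `l` read from the position `i` of the `q`-th segment -/
noncomputable def P (q i : ℕ) : ℕ → Module.End ℚ V
  | 0 => 1
  | l + 1 => T (decide (q ∣ i + l + 1)) * P q i l

/-- the operator of a word -/
noncomputable def op (w : List Bool) : Module.End ℚ V := (w.map T).prod

lemma op_cons (b : Bool) (w : List Bool) : op (b :: w) = T b * op w := by
  simp [op]

lemma op_e (w : List Bool) (q i : ℕ) :
    op w (e q i) = 0 ∨ (op w = P q i w.length ∧ op w (e q i) = e q (i + w.length)) := by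
  induction w with
  | nil => right; simp [op, P]
  | cons b w ih =>
    rcases ih with h | ⟨h1, h2⟩
    · left
      rw [op_cons, Module.End.mul_apply, h, map_zero]
    · rw [op_cons, Module.End.mul_apply, h2, T_e]
      split_ifs with h3
      · right
        refine ⟨?_, by rw [List.length_cons]; rfl⟩
        rw [List.length_cons, P, h3.2, h1]
      · left; rfl

lemma ext_e {f g : Module.End ℚ V} (h : ∀ q i, f (e q i) = g (e q i)) : f = g := by
  apply Finsupp.lhom_ext
  intro p c
  have := h p.1 p.2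
  have e1 : (Finsupp.single p c : V) = c • e p.1 p.2 := by simp [e]
  rw [e1, map_smul, map_smul, this]

lemma P_congr {q i q' i' l : ℕ} (h : ∀ t, t < l → (q ∣ i + t + 1 ↔ q' ∣ i' + t + 1)) :
    P q i l = P q' i' l := by
  induction l with
  | zero => rfl
  | succ l ih =>
    rw [P, P, ih (fun t ht => h t (by omega))]
    congr 2
    exact decide_eq_decide.2 (h l (by omega))

lemma P_e (q i q' i' l : ℕ) :
    P q i l (e q' i') = 0 ∨ (P q i l (e q' i') = e q' (i' + l) ∧
      ∀ t, t < l → (q ∣ i + t + 1 ↔ q' ∣ i' + t + 1)) := by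
  induction l with
  | zero => right; exact ⟨rfl, fun t ht => absurd ht (by omega)⟩
  | succ l ih =>
    rcases ih with h | ⟨h1, h2⟩
    · left
      rw [P, Module.End.mul_apply, h, map_zero]
    · rw [P, Module.End.mul_apply, h1, T_e]
      split_ifs with h3
      · right
        refine ⟨rfl, fun t ht => ?_⟩
        rcases Nat.lt_succ_iff_lt_or_eq.1 ht with h4 | h4
        · exact h2 t h4
        · subst h4
          exact (decide_eq_decide.1 h3.2).symm
      · left; rfl

lemma P_self (q i l : ℕ) (h : i + l < q * q) : P q i l (e q i) = e q (i + l) := by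
  induction l with
  | zero => rfl
  | succ l ih =>
    rw [P, Module.End.mul_apply, ih (by omega), T_e, if_pos ⟨by omega, rfl⟩]
    rfl

lemma reduce (n l q i : ℕ) (hl : l ≤ n) :
    ∃ q', q' ≤ n + 1 ∧ ∃ i', i' ≤ n + 1 ∧ P q i l = P q' i' l := by
  rcases Nat.eq_zero_or_pos q with h0 | h0
  · subst h0
    refine ⟨n + 1, le_rfl, 0, by omega, P_congr fun t ht => ?_⟩
    constructor
    · intro h; exact absurd (Nat.eq_zero_of_zero_dvd h) (by omega)
    · intro h; exact absurd (Nat.le_of_dvd (by omega) h) (by omega)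
  by_cases h1 : q ≤ n + 1
  · refine ⟨q, h1, i % q, ?_, P_congr fun t _ => ?_⟩
    · have := Nat.mod_lt i h0
      omega
    · have h2 : i + t + 1 = (i % q + t + 1) + q * (i / q) := by
        have := Nat.mod_add_div i q
        omega
      rw [h2]
      exact (Nat.dvd_add_left (dvd_mul_right _ _))
  · by_cases h2 : ∃ t, t < l ∧ q ∣ i + t + 1
    · obtain ⟨t0, ht0, hd⟩ := h2
      refine ⟨n + 1, le_rfl, n - t0, by omega, P_congr fun t ht => ?_⟩
      constructor
      · intro h
        have : t = t0 := by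
          by_contra hne
          rcases Nat.lt_or_gt_of_ne hne with h3 | h3
          · have h4 : q ∣ t0 - t := by
              have := Nat.dvd_sub hd h
              have e1 : i + t0 + 1 - (i + t + 1) = t0 - t := by omega
              rwa [e1] at this
            exact absurd (Nat.le_of_dvd (by omega) h4) (by omega)
          · have h4 : q ∣ t - t0 := by
              have := Nat.dvd_sub h hd
              have e1 : i + t + 1 - (i + t0 + 1) = t - t0 := by omega
              rwa [e1] at this
            exact absurd (Nat.le_of_dvd (by omega) h4) (by omega)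
        subst this
        have : n - t + t + 1 = n + 1 := by omega
        rw [this]
      · intro h
        have : t = t0 := by
          obtain ⟨c, hc⟩ := h
          have h5 : c = 1 := by
            rcases Nat.lt_or_ge c 1 with h6 | h6
            · have : c = 0 := by omega
              subst this; omega
            · rcases Nat.lt_or_ge c 2 with h7 | h7
              · omega
              · have : (n + 1) * 2 ≤ (n + 1) * c := Nat.mul_le_mul_left _ h7
                omega
          subst h5
          omega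
        subst this
        exact hd
    · refine ⟨n + 1, le_rfl, 0, by omega, P_congr fun t ht => ?_⟩
      constructor
      · intro h; exact absurd ⟨t, ht, h⟩ h2
      · intro h; exact absurd (Nat.le_of_dvd (by omega) h) (by omega)

/-- the algebra -/
noncomputable abbrev A : Subalgebra ℚ (Module.End ℚ V) := Algebra.adjoin ℚ (Set.range T)

/-- the letters as elements of the algebra -/
noncomputable def x (b : Bool) : A := ⟨T b, Algebra.subset_adjoin ⟨b, rfl⟩⟩

lemma P_mem (q i l : ℕ) : P q i l ∈ A := by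
  induction l with
  | zero => exact one_mem _
  | succ l ih => exact mul_mem (Algebra.subset_adjoin ⟨_, rfl⟩) ih

lemma finiteType : Algebra.FiniteType ℚ A := by
  rw [← Subalgebra.fg_iff_finiteType]
  exact ⟨(Set.finite_range T).toFinset, by rw [Set.Finite.coe_toFinset]⟩

/-- the generating set -/
def G : Set A := insert 1 (Set.range x)

lemma mem_pow (n : ℕ) (a : A) (ha : a ∈ G ^ n) : ∃ w : List Bool, w.length ≤ n ∧ (a : Module.End ℚ V) = op w := by
  induction n generalizing a with
  | zero =>
    rw [pow_zero, Set.mem_one] at ha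
    exact ⟨[], le_rfl, by rw [ha]; rfl⟩
  | succ n ih =>
    rw [pow_succ'] at ha
    obtain ⟨g, hg, b, hb, rfl⟩ := Set.mem_mul.1 ha
    obtain ⟨w, hw, he⟩ := ih b hb
    rcases hg with rfl | ⟨c, rfl⟩
    · exact ⟨w, by omega, by rw [one_mul, he]⟩
    · refine ⟨c :: w, by simp; omega, ?_⟩
      rw [op_cons, ← he]
      rfl

lemma growth (n : ℕ) : Module.finrank ℚ ↥((Submodule.span ℚ G) ^ n) ≤ 8 * (n + 1) ^ 3 := by
  classical
  let s : Finset A := ((Finset.range (n + 2)) ×ˢ ((Finset.range (n + 2)) ×ˢ (Finset.range (n + 1)))).image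
    (fun p => (⟨P p.1 p.2.1 p.2.2, P_mem _ _ _⟩ : A))
  have hle : (Submodule.span ℚ G) ^ n ≤ Submodule.span ℚ (s : Set A) := by
    rw [Submodule.span_pow, Submodule.span_le]
    intro a ha
    obtain ⟨w, hw, he⟩ := mem_pow n a ha
    by_cases h0 : op w = 0
    · have : a = 0 := Subtype.ext (by rw [he, h0]; rfl)
      rw [this]
      exact Submodule.zero_mem _
    · obtain ⟨q, i, hqi⟩ : ∃ q i, op w (e q i) ≠ 0 := by
        by_contra hcon
        push Not at hcon
        exact h0 (ext_e (fun q i => by rw [hcon q i]; rfl))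
      rcases op_e w q i with h1 | ⟨h1, _⟩
      · exact absurd h1 hqi
      · obtain ⟨q', hq', i', hi', hP⟩ := reduce n w.length q i hw
        apply Submodule.subset_span
        rw [Finset.mem_coe, Finset.mem_image]
        refine ⟨(q', i', w.length), ?_, ?_⟩
        · simp only [Finset.mem_product, Finset.mem_range]
          omega
        · apply Subtype.ext
          show P q' i' w.length = (a : Module.End ℚ V)
          rw [he, h1, hP]
  have h1 : Module.finrank ℚ ↥((Submodule.span ℚ G) ^ n) ≤ Module.finrank ℚ ↥(Submodule.span ℚ (s : Set A)) := by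
    have : Module.Finite ℚ ↥(Submodule.span ℚ (s : Set A)) := Module.Finite.span_of_finite ℚ (Finset.finite_toSet s)
    exact Submodule.finrank_mono hle
  have h2 : Module.finrank ℚ ↥(Submodule.span ℚ (s : Set A)) ≤ s.card := finrank_span_finset_le_card s
  have h3 : s.card ≤ (n + 2) * ((n + 2) * (n + 1)) := by
    refine Finset.card_image_le.trans ?_
    simp [Finset.card_product]
  have h4 : (n + 2) * ((n + 2) * (n + 1)) ≤ 8 * (n + 1) ^ 3 := by
    have : n + 2 ≤ 2 * (n + 1) := by omega
    calc (n + 2) * ((n + 2) * (n + 1)) ≤ (2 * (n + 1)) * ((2 * (n + 1)) * (n + 1)) := by gcongr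
      _ = 4 * (n + 1) ^ 3 := by ring
      _ ≤ 8 * (n + 1) ^ 3 := by gcongr; norm_num
  omega

lemma adjoin_G : Algebra.adjoin ℚ ((Submodule.span ℚ G : Submodule ℚ A) : Set A) = ⊤ := by
  have h1 : Algebra.adjoin ℚ (Set.range x) = ⊤ := by
    have h2 : (Set.range x) = ((↑) : A → Module.End ℚ V) ⁻¹' (Set.range T) := by
      ext a
      constructor
      · rintro ⟨b, rfl⟩; exact ⟨b, rfl⟩
      · rintro ⟨b, hb⟩; exact ⟨b, Subtype.ext hb⟩
    rw [h2]
    exact Algebra.adjoin_adjoin_coe_preimage
  rw [eq_top_iff, ← h1]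
  apply Algebra.adjoin_mono
  intro a ha
  exact Submodule.subset_span (Set.mem_insert_of_mem _ ha)

/-- the span of the `e q j`, `s ≤ j < q ^ 2` -/
noncomputable def R (q s : ℕ) : Submodule ℚ V :=
  Submodule.span ℚ {v | ∃ j, s ≤ j ∧ j < q * q ∧ v = e q j}

lemma R_mono {q s t : ℕ} (h : s ≤ t) : R q t ≤ R q s :=
  Submodule.span_mono (fun _ ⟨j, h1, h2, h3⟩ => ⟨j, h.trans h1, h2, h3⟩)

lemma R_bot {q s : ℕ} (h : q * q ≤ s) : R q s = ⊥ := by
  rw [R, Submodule.span_eq_bot]
  rintro v ⟨j, h1, h2, _⟩
  omega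

/-- triangularity -/
def Tri (a : Module.End ℚ V) (c : ℚ) : Prop := ∀ q i, a (e q i) - c • e q i ∈ R q (i + 1)

lemma Tri.map_R {a : Module.End ℚ V} {c : ℚ} (h : Tri a c) {q s : ℕ} {v : V} (hv : v ∈ R q s) :
    a v ∈ R q s := by
  induction hv using Submodule.span_induction with
  | mem v hv =>
    obtain ⟨j, h1, h2, rfl⟩ := hv
    have h3 := h q j
    have h4 : a (e q j) = (a (e q j) - c • e q j) + c • e q j := by abel
    rw [h4]
    refine Submodule.add_mem _ (R_mono (by omega) h3) (Submodule.smul_mem _ _ ?_)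
    exact Submodule.subset_span ⟨j, h1, h2, rfl⟩
  | zero => rw [map_zero]; exact Submodule.zero_mem _
  | add u v _ _ hu hv => rw [map_add]; exact Submodule.add_mem _ hu hv
  | smul r v _ hv => rw [map_smul]; exact Submodule.smul_mem _ _ hv

lemma tri (a : Module.End ℚ V) (ha : a ∈ A) : ∃ c, Tri a c := by
  induction ha using Algebra.adjoin_induction with
  | mem a ha =>
    obtain ⟨b, rfl⟩ := ha
    refine ⟨0, fun q i => ?_⟩
    rw [zero_smul, sub_zero, T_e]
    split_ifs with h
    · exact Submodule.subset_span ⟨i + 1, le_rfl, h.1, rfl⟩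
    · exact Submodule.zero_mem _
  | algebraMap r =>
    refine ⟨r, fun q i => ?_⟩
    rw [Module.algebraMap_end_apply, sub_self]
    exact Submodule.zero_mem _
  | add a b _ _ ha hb =>
    obtain ⟨c, hc⟩ := ha
    obtain ⟨d, hd⟩ := hb
    refine ⟨c + d, fun q i => ?_⟩
    have : (a + b) (e q i) - (c + d) • e q i = (a (e q i) - c • e q i) + (b (e q i) - d • e q i) := by
      rw [LinearMap.add_apply, add_smul]; abel
    rw [this]
    exact Submodule.add_mem _ (hc q i) (hd q i)
  | mul a b _ _ ha hb =>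
    obtain ⟨c, hc⟩ := ha
    obtain ⟨d, hd⟩ := hb
    refine ⟨c * d, fun q i => ?_⟩
    have : (a * b) (e q i) - (c * d) • e q i = a (b (e q i) - d • e q i) + d • (a (e q i) - c • e q i) := by
      rw [Module.End.mul_apply, map_sub, map_smul, smul_sub, smul_smul, mul_comm c d]; abel
    rw [this]
    exact Submodule.add_mem _ (hc.map_R (hd q i)) (Submodule.smul_mem _ _ (hc q i))

/-- the elements of `A` which vanish outside the `q`-th segment -/
def carr (q : ℕ) : Set A := {a | ∀ q', q' ≠ q → ∀ i, (a : Module.End ℚ V) (e q' i) = 0}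

lemma kill {q : ℕ} {a : A} (ha : a ∈ carr q) {q' : ℕ} (hq : q' ≠ q) {i : ℕ} {v : V}
    (hv : v ∈ R q' i) : (a : Module.End ℚ V) v = 0 := by
  induction hv using Submodule.span_induction with
  | mem v hv =>
    obtain ⟨j, _, _, rfl⟩ := hv
    exact ha q' hq j
  | zero => rw [map_zero]
  | add u v _ _ hu hv => rw [map_add, hu, hv, add_zero]
  | smul r v _ hv => rw [map_smul, hv, smul_zero]

lemma carr_zero (q : ℕ) : (0 : A) ∈ carr q := fun _ _ _ => rfl

lemma carr_add {q : ℕ} {a b : A} (ha : a ∈ carr q) (hb : b ∈ carr q) : a + b ∈ carr q := by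
  intro q' hq i
  show ((a : Module.End ℚ V) + b) (e q' i) = 0
  rw [LinearMap.add_apply, ha q' hq i, hb q' hq i, add_zero]

lemma carr_neg {q : ℕ} {a : A} (ha : a ∈ carr q) : -a ∈ carr q := by
  intro q' hq i
  show (-(a : Module.End ℚ V)) (e q' i) = 0
  rw [LinearMap.neg_apply, ha q' hq i, neg_zero]

lemma carr_mul_left {q : ℕ} {a b : A} (hb : b ∈ carr q) : a * b ∈ carr q := by
  intro q' hq i
  show ((a : Module.End ℚ V) * b) (e q' i) = 0
  rw [Module.End.mul_apply, hb q' hq i, map_zero]

lemma carr_mul_right {q : ℕ} {a b : A} (ha : a ∈ carr q) : a * b ∈ carr q := by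
  intro q' hq i
  show ((a : Module.End ℚ V) * b) (e q' i) = 0
  obtain ⟨c, hc⟩ := tri b b.2
  have h4 : (b : Module.End ℚ V) (e q' i) =
      ((b : Module.End ℚ V) (e q' i) - c • e q' i) + c • e q' i := by abel
  rw [Module.End.mul_apply, h4, map_add, kill ha hq (hc q' i), map_smul, ha q' hq i, smul_zero,
    add_zero]

/-- the ideal -/
noncomputable def I (q : ℕ) : TwoSidedIdeal A :=
  TwoSidedIdeal.mk' (carr q) (carr_zero q) carr_add carr_neg carr_mul_left carr_mul_right

lemma mem_I {q : ℕ} {a : A} : a ∈ I q ↔ a ∈ carr q := by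
  rw [I, TwoSidedIdeal.mem_mk']

lemma tri_zero {q : ℕ} {a : A} (ha : a ∈ carr q) : Tri (a : Module.End ℚ V) 0 := by
  obtain ⟨c, hc⟩ := tri a a.2
  have h1 := hc (q + 1) 0
  rw [ha (q + 1) (by omega) 0, zero_sub] at h1
  have h2 : c = 0 := by
    by_contra hne
    have h3 : e (q + 1) 0 ∈ R (q + 1) (0 + 1) := by
      have h4 := Submodule.smul_mem _ (-c⁻¹) h1
      rwa [smul_neg, neg_smul, neg_neg, smul_smul, inv_mul_cancel₀ hne, one_smul] at h4
    have h5 : ∀ v ∈ R (q + 1) (0 + 1), v (q + 1, 0) = 0 := by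
      intro v hv
      induction hv using Submodule.span_induction with
      | mem v hv =>
        obtain ⟨j, h6, _, rfl⟩ := hv
        rw [e, Finsupp.single_apply, if_neg]
        intro h7
        rw [Prod.mk.injEq] at h7
        omega
      | zero => rfl
      | add u v _ _ hu hv => rw [Finsupp.add_apply, hu, hv, add_zero]
      | smul r v _ hv => rw [Finsupp.smul_apply, hv, smul_zero]
    have h6 := h5 _ h3
    rw [e, Finsupp.single_apply, if_pos rfl] at h6
    exact one_ne_zero h6
  rwa [h2] at hc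

lemma raise {q : ℕ} {a : A} (ha : a ∈ carr q) {s : ℕ} {v : V} (hv : v ∈ R q s) :
    (a : Module.End ℚ V) v ∈ R q (s + 1) := by
  induction hv using Submodule.span_induction with
  | mem v hv =>
    obtain ⟨j, h1, h2, rfl⟩ := hv
    have h3 := tri_zero ha q j
    rw [zero_smul, sub_zero] at h3
    exact R_mono (by omega) h3
  | zero => rw [map_zero]; exact Submodule.zero_mem _
  | add u v _ _ hu hv => rw [map_add]; exact Submodule.add_mem _ hu hv
  | smul r v _ hv => rw [map_smul]; exact Submodule.smul_mem _ _ hv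

lemma prod_e {q : ℕ} (L : List A) (hL : ∀ a ∈ L, a ∈ carr q) (a : A) (ha : a ∈ carr q) (i : ℕ) :
    ((L.prod * a : A) : Module.End ℚ V) (e q i) ∈ R q (i + 1 + L.length) := by
  induction L with
  | nil =>
    rw [List.prod_nil, one_mul]
    have h3 := tri_zero ha q i
    rwa [zero_smul, sub_zero] at h3
  | cons b L ih =>
    rw [List.prod_cons, mul_assoc]
    have h1 := ih (fun a ha => hL a (List.mem_cons_of_mem _ ha))
    show ((b : Module.End ℚ V) * ((L.prod * a : A) : Module.End ℚ V)) (e q i) ∈ _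
    rw [Module.End.mul_apply, List.length_cons]
    exact raise (hL b (List.mem_cons_self)) h1

lemma nilp (q : ℕ) : ∃ m : ℕ, ∀ f : Fin m → A, (∀ i, f i ∈ I q) → (List.ofFn f).prod = 0 := by
  refine ⟨q * q + 1, fun f hf => ?_⟩
  rw [List.ofFn_succ', List.prod_concat]
  have h1 : ∀ a ∈ List.ofFn (fun i : Fin (q * q) => f i.castSucc), a ∈ carr q := by
    intro a ha
    rw [List.mem_ofFn] at ha
    obtain ⟨i, rfl⟩ := ha
    exact mem_I.1 (hf _)
  apply Subtype.ext
  apply ext_e
  intro q' i
  by_cases hq : q' = q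
  · subst hq
    have h2 := prod_e _ h1 _ (mem_I.1 (hf (Fin.last _))) i
    rw [R_bot (by rw [List.length_ofFn]; omega), Submodule.mem_bot] at h2
    rw [h2]
    rfl
  · show (((List.ofFn (fun i : Fin (q * q) => f i.castSucc)).prod : A) : Module.End ℚ V)
      ((f (Fin.last _) : Module.End ℚ V) (e q' i)) = 0
    rw [mem_I.1 (hf (Fin.last _)) q' hq i, map_zero]

/-- the element `y x^(q-1) y x^(q-1)` -/
noncomputable def w (q : ℕ) : A := ⟨P q 0 (2 * q), P_mem _ _ _⟩

lemma w_mem {q : ℕ} (hq : 1 ≤ q) : w q ∈ I q := by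
  rw [mem_I]
  intro q' hne i
  rcases P_e q 0 q' i (2 * q) with h | ⟨_, h⟩
  · exact h
  exfalso
  have h1 := h (q - 1) (by omega)
  have h2 := h (2 * q - 1) (by omega)
  have e1 : 0 + (q - 1) + 1 = q := by omega
  have e2 : 0 + (2 * q - 1) + 1 = 2 * q := by omega
  rw [e1] at h1
  rw [e2] at h2
  have h3 : q' ∣ i + (q - 1) + 1 := h1.1 dvd_rfl
  have h4 : q' ∣ i + (2 * q - 1) + 1 := h2.1 (Dvd.intro_left 2 rfl)
  have h5 : q' ∣ q := by
    have := Nat.dvd_sub h4 h3
    have e3 : i + (2 * q - 1) + 1 - (i + (q - 1) + 1) = q := by omega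
    rwa [e3] at this
  have h6 : q' ≤ q := Nat.le_of_dvd hq h5
  have h7 : 1 ≤ q' := Nat.pos_of_dvd_of_pos h5 hq
  have h8 := h (q + q' - 1) (by omega)
  have e4 : 0 + (q + q' - 1) + 1 = q + q' := by omega
  have e5 : i + (q + q' - 1) + 1 = (i + (q - 1) + 1) + q' := by omega
  rw [e4, e5] at h8
  have h9 : q ∣ q + q' := h8.2 (dvd_add h3 dvd_rfl)
  have h10 : q ∣ q' := (Nat.dvd_add_right dvd_rfl).1 h9
  exact absurd (Nat.le_of_dvd h7 h10) (by omega)

lemma w_pow {q m : ℕ} (h : 2 * m < q) (s : ℕ) (hs : s ≤ m) :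
    ((w q ^ s : A) : Module.End ℚ V) (e q 0) = e q (2 * q * s) := by
  induction s with
  | zero => rfl
  | succ s ih =>
    rw [pow_succ']
    show ((w q : Module.End ℚ V) * ((w q ^ s : A) : Module.End ℚ V)) (e q 0) = _
    rw [Module.End.mul_apply, ih (by omega)]
    show P q 0 (2 * q) (e q (2 * q * s)) = _
    have h1 : P q 0 (2 * q) = P q (2 * q * s) (2 * q) := by
      apply P_congr
      intro t _
      have : 2 * q * s + t + 1 = (0 + t + 1) + q * (2 * s) := by ring
      rw [this]
      exact (Nat.dvd_add_left (dvd_mul_right _ _)).symm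
    rw [h1, P_self]
    · congr 1
    · have h2 : 2 * (s + 1) < q := by omega
      have h3 : 2 * (s + 1) * q < q * q := Nat.mul_lt_mul_of_pos_right h2 (by omega)
      nlinarith

theorem main : ∃ (A : Type) (_ : Ring A) (_ : Algebra ℚ A),
    Algebra.FiniteType ℚ A ∧
      (∃ V : Submodule ℚ A, FiniteDimensional ℚ V ∧ (1 : A) ∈ V ∧
          Algebra.adjoin ℚ (V : Set A) = ⊤ ∧
          ∃ C d : ℕ, ∀ n : ℕ, Module.finrank ℚ ↥(V ^ n) ≤ C * (n + 1) ^ d) ∧
      ¬ ∃ N : TwoSidedIdeal A,
        (∃ m : ℕ, ∀ f : Fin m → A, (∀ i, f i ∈ N) → (List.ofFn f).prod = 0) ∧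
        ∀ I : TwoSidedIdeal A,
          (∃ m : ℕ, ∀ f : Fin m → A, (∀ i, f i ∈ I) → (List.ofFn f).prod = 0) → I ≤ N := by
  refine ⟨A, inferInstance, inferInstance, finiteType, ⟨Submodule.span ℚ G, ?_, ?_, adjoin_G, 8, 3, growth⟩, ?_⟩
  · have : Finite G := (Set.Finite.insert 1 (Set.finite_range x)).to_subtype
    exact Module.Finite.span_of_finite ℚ (Set.toFinite G)
  · exact Submodule.subset_span (Set.mem_insert _ _)
  · rintro ⟨N, ⟨m, hm⟩, hN⟩
    have h1 : w (2 * m + 1) ∈ N := hN _ (nilp _) (w_mem (by omega))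
    have h2 := hm (fun _ => w (2 * m + 1)) (fun _ => h1)
    rw [List.ofFn_const, List.prod_replicate] at h2
    have h3 := w_pow (q := 2 * m + 1) (m := m) (by omega) m le_rfl
    rw [h2] at h3
    exact e_ne _ _ h3.symm

end Pool.Agent.U693.GKNil
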